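import Pool.Agent.H52Hex.Main

/-!
MP_8e036e_co, Q1: for every `k` there is a unit area tiling of the plane by strictly convex
hexagons of equal perimeter with at least `k` irregular vertices.

The plane is `ℂ`, with `MeasureTheory.volume` its Lebesgue (area) measure.
-/

namespace Pool.Agent.Results.MP_8e036e_co.EqualPerimeter

open MeasureTheory
open scoped BigOperators

/-- A convex hexagon with exactly six vertices, listed counterclockwise: every other vertex lies
strictly to the left of the directed line through `vertex i` and `vertex (i + 1)` (indices mod 6). -/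
structure ConvexHexagon where
  vertex : Fin 6 → ℂ
  convex : ∀ i j : Fin 6, j ≠ i → j ≠ i + 1 →
    0 < (vertex (i + 1) - vertex i).re * (vertex j - vertex i).im
        - (vertex (i + 1) - vertex i).im * (vertex j - vertex i).re

/-- The closed region bounded by the hexagon. -/
def ConvexHexagon.region (H : ConvexHexagon) : Set ℂ := convexHull ℝ (Set.range H.vertex)

/-- The relative interior of the edge from `vertex s` to `vertex (s + 1)`. -/
def ConvexHexagon.openEdge (H : ConvexHexagon) (s : Fin 6) : Set ℂ :=
  openSegment ℝ (H.vertex s) (H.vertex (s + 1))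

/-- The perimeter. -/
noncomputable def ConvexHexagon.perimeter (H : ConvexHexagon) : ℝ :=
  ∑ s : Fin 6, dist (H.vertex s) (H.vertex (s + 1))

/-- The family `T` is a tiling of the plane: the regions cover the plane and have pairwise
disjoint interiors. -/
structure IsTiling {ι : Type} (T : ι → ConvexHexagon) : Prop where
  cover : ⋃ i, (T i).region = Set.univ
  disj : ∀ i j, i ≠ j → Disjoint (interior (T i).region) (interior (T j).region)

/-- `p` is a vertex of some tile and lies in the relative interior of an edge of another tile. -/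
def IsIrregularVertex {ι : Type} (T : ι → ConvexHexagon) (p : ℂ) : Prop :=
  ∃ i j, i ≠ j ∧ (∃ s, (T i).vertex s = p) ∧ ∃ s, p ∈ (T j).openEdge s

/-- For every `k` there is a countable tiling of the plane by convex hexagons of area `1` and of
one common perimeter `P` with at least `k` irregular vertices. -/
theorem result : ∀ k : ℕ, ∃ (ι : Type) (_ : Countable ι) (T : ι → ConvexHexagon) (P : ℝ),
    IsTiling T ∧
    (∀ i, volume (T i).region = 1) ∧
    (∀ i, (T i).perimeter = P) ∧
    ∃ S : Finset ℂ, k ≤ S.card ∧ ∀ p ∈ S, IsIrregularVertex T p := by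
  intro k
  obtain ⟨ι, hι, v, P, hconv, hvol, hper, hcov, hdisj, S, hS, hirr⟩ := H52Hex.main k
  refine ⟨ι, hι, fun i => ⟨v i, fun a b h1 h2 => hconv i a b h1 h2⟩, P, ⟨hcov, hdisj⟩, hvol, hper,
    S, hS, fun p hp => ?_⟩
  obtain ⟨i, j, hij, ⟨s, hs⟩, s', hs'⟩ := hirr p hp
  exact ⟨i, j, hij, ⟨s, hs⟩, s', hs'⟩

end Pool.Agent.Results.MP_8e036e_co.EqualPerimeter
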